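import Pool.Agent.T4h92.BW.Stm
import Pool.Agent.T2h42.GE.Fin

/-!
The part DP: sets which contain a large direct product with many nontrivial factors.
-/

set_option autoImplicit false

namespace Pool.Agent.T2h24.BW

open Finset Pool.Agent.T4h92.BW
open Pool.Agent.TH83.SQ (dil)
open Pool.Agent.T2h42.GD (dm)
open scoped Classical Pointwise

/-- some subset of size `m` has at most its share of the sum -/
theorem light_subset {J : Type} (f : J → ℝ) (m : ℕ) : ∀ (n : ℕ) (N : Finset J), N.card = m + n →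
    ∃ s ⊆ N, s.card = m ∧ (∑ j ∈ s, f j) * (N.card : ℝ) ≤ m * ∑ j ∈ N, f j := by
  intro n
  induction n with
  | zero =>
    intro N hN
    refine ⟨N, subset_rfl, by simpa using hN, ?_⟩
    have : (N.card : ℝ) = m := by exact_mod_cast (by simpa using hN : N.card = m)
    rw [this, mul_comm]
  | succ n ih =>
    intro N hN
    have hne : N.Nonempty := card_pos.mp (by omega)
    obtain ⟨j, hj, hmax⟩ := N.exists_max_image f hne
    have hce : (N.erase j).card = m + n := by rw [card_erase_of_mem hj]; omega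
    obtain ⟨s, hs, hc, h⟩ := ih (N.erase j) hce
    refine ⟨s, hs.trans (erase_subset _ _), hc, ?_⟩
    have h1 : ∑ i ∈ N.erase j, f i = ∑ i ∈ N, f i - f j := by
      rw [← Finset.add_sum_erase N f hj]; ring
    have h2 : ∑ i ∈ N, f i ≤ (N.card : ℝ) * f j := by
      have := Finset.sum_le_card_nsmul N f (f j) hmax
      simpa [nsmul_eq_mul] using this
    have h3 : (N.card : ℝ) = (m + n : ℕ) + 1 := by
      rw [hN]; push_cast; ring
    rw [hce, h1] at h
    rw [h3] at h2 ⊢
    rcases Nat.eq_zero_or_pos (m + n) with h0 | h0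
    · have hm : m = 0 := by omega
      subst hm
      have hs0 : s = ∅ := card_eq_zero.mp hc
      subst hs0
      simp
    · have h0' : (0 : ℝ) < ((m + n : ℕ) : ℝ) := by exact_mod_cast h0
      set p : ℝ := ((m + n : ℕ) : ℝ)
      set S := ∑ i ∈ s, f i
      set T := ∑ i ∈ N, f i
      have hm0 : (0 : ℝ) ≤ m := Nat.cast_nonneg m
      have h4 : S * p * (p + 1) ≤ m * (T - f j) * (p + 1) :=
        mul_le_mul_of_nonneg_right h (by linarith)
      have h5 : (m : ℝ) * ((p + 1) * f j - T) ≥ 0 := mul_nonneg hm0 (by linarith)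
      have h6 : (S * (p + 1)) * p ≤ (m * T) * p := by nlinarith
      exact le_of_mul_le_mul_right h6 h0'

/-- a member of a box of coprime sets is determined by the product of its components -/
theorem prod_inj {J : Type} [Fintype J] {W : J → Finset ℕ}
    (hcop : ∀ j j', j ≠ j' → ∀ x ∈ W j, ∀ y ∈ W j', Nat.Coprime x y)
    {x y : J → ℕ} (hx : x ∈ Fintype.piFinset W) (hy : y ∈ Fintype.piFinset W)
    (h : ∏ j, x j = ∏ j, y j) : x = y := by
  rw [Fintype.mem_piFinset] at hx hy
  have key : ∀ u v : J → ℕ, (∀ j, u j ∈ W j) → (∀ j, v j ∈ W j) → ∏ j, u j = ∏ j, v j →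
      ∀ j, u j ∣ v j := by
    intro u v hu hv he j
    have h1 : u j ∣ v j * ∏ i ∈ univ.erase j, v i := by
      rw [Finset.mul_prod_erase _ _ (mem_univ j), ← he]
      exact Finset.dvd_prod_of_mem _ (mem_univ j)
    refine Nat.Coprime.dvd_of_dvd_mul_right ?_ h1
    refine Nat.Coprime.prod_right fun i hi => ?_
    exact hcop j i (ne_of_mem_erase hi).symm _ (hu j) _ (hv i)
  funext j
  exact Nat.dvd_antisymm (key x y hx hy h j) (key y x hy hx h.symm j)

theorem box_card {J : Type} [Fintype J] {W : J → Finset ℕ}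
    (hcop : ∀ j j', j ≠ j' → ∀ x ∈ W j, ∀ y ∈ W j', Nat.Coprime x y) :
    ((Fintype.piFinset W).image fun x => ∏ j, x j).card = ∏ j, (W j).card := by
  rw [card_image_of_injOn, Fintype.card_piFinset]
  intro x hx y hy h
  exact prod_inj hcop (by simpa using hx) (by simpa using hy) h

theorem t_DP : T_DP := by
  intro δ θ C₀ hδ hθ hC₀
  rcases le_or_gt 1 (4 * δ) with h4 | h4
  · refine ⟨0, le_rfl, ?_⟩
    intro J _ W hne hpos hcop A hA hθA hδA B hB
    have hL : 0 ≤ Real.log A.card := Real.log_natCast_nonneg _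
    have hLB : 0 ≤ Real.log B.card := Real.log_natCast_nonneg _
    have := mul_nonneg (show 0 ≤ 4 * δ - 1 by linarith) (add_nonneg hL hLB)
    have h5 : 0 ≤ Real.log (((A.image fun a : ℕ => (a : ℤ)) + B).card : ℝ) :=
      Real.log_natCast_nonneg _
    linarith
  obtain ⟨C', hC'⟩ := Pool.Agent.T2h42.GE.dilates δ (δ * θ / (1 + 1 / δ)) hδ (by positivity)
  refine ⟨max C' 0 + C₀ + 1 / θ, by positivity, ?_⟩
  intro J _ W hne hpos hcop A hA hθA hδA B hB
  have hL : 0 ≤ Real.log A.card := Real.log_natCast_nonneg _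
  have hLB : 0 ≤ Real.log B.card := Real.log_natCast_nonneg _
  set H := Real.log A.card with hH
  set N := univ.filter fun j => 2 ≤ (W j).card with hN
  set Hb := ∑ j, Real.log (W j).card with hHb
  have hBc : 0 < B.card := hB.card_pos
  -- the box embeds into A
  have hsub : ((Fintype.piFinset W).image fun x => ∏ j, x j) ⊆ A := by
    intro a ha
    obtain ⟨x, hx, rfl⟩ := mem_image.mp ha
    exact hA x hx
  have hpi : (Fintype.piFinset W).Nonempty := Fintype.piFinset_nonempty.mpr hne
  have hAne : A.Nonempty := (hpi.image _).mono hsub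
  have hWc : ∀ j, (0 : ℝ) < (W j).card := fun j => by exact_mod_cast (hne j).card_pos
  have hbox : (∏ j, ((W j).card : ℝ)) ≤ A.card := by
    have := card_le_card hsub
    rw [box_card hcop] at this
    exact_mod_cast this
  have hHbH : Hb ≤ H := by
    rw [hHb, hH, ← Real.log_prod (fun j _ => (hWc j).ne')]
    exact Real.log_le_log (prod_pos fun j _ => hWc j) hbox
  have hlogW : ∀ j, 0 ≤ Real.log (W j).card := fun j => Real.log_natCast_nonneg _
  have hAz : (A.image fun a : ℕ => (a : ℤ)).Nonempty := hAne.image _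
  -- the trivial bound
  have htriv : Real.log B.card ≤ Real.log (((A.image fun a : ℕ => (a : ℤ)) + B).card : ℝ) := by
    apply Real.log_le_log (by exact_mod_cast hBc)
    exact_mod_cast Finset.card_le_card_add_left hAz
  have hM0 : 0 ≤ max C' 0 := le_max_right _ _
  have hθ' : 0 < 1 / θ := by positivity
  rcases lt_or_ge (H / δ) (Real.log B.card) with hbig | hsmall
  · have h1 : H ≤ δ * Real.log B.card := by
      rw [div_lt_iff₀ hδ] at hbig
      linarith
    have h2 : (1 - 4 * δ) * H ≤ (1 - 4 * δ) * (δ * Real.log B.card) :=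
      mul_le_mul_of_nonneg_left h1 (by linarith)
    have h3 : 0 ≤ δ * δ * Real.log B.card := by positivity
    have h3' : 0 ≤ δ * Real.log B.card := by positivity
    nlinarith
  -- the main case
  rcases Nat.eq_zero_or_pos N.card with hN0 | hN0
  · have h1 : H ≤ 0 := by
      rw [hN0] at hθA
      push_cast at hθA
      by_contra hcon
      push Not at hcon
      have := mul_pos hθ hcon
      linarith
    have h2 : 0 ≤ δ * Real.log B.card := by positivity
    have h3 : 0 ≤ (1 - 4 * δ) * (-H) := mul_nonneg (by linarith) (by linarith)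
    nlinarith
  have hN0' : (0 : ℝ) < N.card := by exact_mod_cast hN0
  set m := ⌊δ * N.card⌋₊ + 1 with hm
  have hmN : m ≤ N.card := by
    have : ⌊δ * N.card⌋₊ < N.card := by
      rw [Nat.floor_lt (by positivity)]
      nlinarith
    omega
  have hm1 : δ * N.card ≤ m := by
    have := Nat.lt_floor_add_one (δ * (N.card : ℝ))
    rw [hm]; push_cast; linarith
  have hm2 : (m : ℝ) ≤ δ * N.card + 1 := by
    have := Nat.floor_le (show 0 ≤ δ * (N.card : ℝ) by positivity)
    rw [hm]; push_cast; linarith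
  obtain ⟨J1, hJ1, hJ1c, hJ1s⟩ := light_subset (fun j => Real.log (W j).card) m (N.card - m) N
    (by omega)
  have hNs : ∑ j ∈ N, Real.log (W j).card ≤ Hb :=
    Finset.sum_le_sum_of_subset_of_nonneg (subset_univ _) fun j _ _ => hlogW j
  have hHb0 : 0 ≤ Hb := sum_nonneg fun j _ => hlogW j
  have hJ1s2 : ∑ j ∈ J1, Real.log (W j).card ≤ δ * H + 1 / θ := by
    have h1 : (∑ j ∈ J1, Real.log (W j).card) * (N.card : ℝ) ≤ (δ * N.card + 1) * H := by
      refine hJ1s.trans ?_
      calc (m : ℝ) * ∑ j ∈ N, Real.log (W j).card ≤ m * H :=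
            mul_le_mul_of_nonneg_left (hNs.trans hHbH) (Nat.cast_nonneg _)
        _ ≤ _ := mul_le_mul_of_nonneg_right hm2 hL
    have h2 : H ≤ (1 / θ) * N.card := by
      rw [one_div, ← div_eq_inv_mul, le_div_iff₀ hθ]; linarith
    have h3 : (∑ j ∈ J1, Real.log (W j).card) * (N.card : ℝ) ≤ (δ * H + 1 / θ) * N.card := by
      nlinarith
    exact le_of_mul_le_mul_right h3 hN0'
  -- the toggles
  have hpick : ∀ j, ∃ p : ℕ × ℕ, (j ∈ J1 → p.1 ∈ W j ∧ p.2 ∈ W j ∧ p.1 ≠ p.2) := by
    intro j
    by_cases hj : j ∈ J1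
    · have h2 : 1 < (W j).card := by
        have := hJ1 hj
        rw [hN, mem_filter] at this
        omega
      obtain ⟨a, ha, b, hb, hab⟩ := one_lt_card.mp h2
      exact ⟨(a, b), fun _ => ⟨ha, hb, hab⟩⟩
    · exact ⟨(0, 0), fun h => absurd h hj⟩
  choose p hp using hpick
  set g : J → ℕ := fun j => Nat.gcd (p j).1 (p j).2 with hg
  set x' : J → ℕ := fun j => (p j).1 / g j with hx'
  set y' : J → ℕ := fun j => (p j).2 / g j with hy'
  have hgpos : ∀ j ∈ J1, 0 < g j := fun j hj =>
    Nat.gcd_pos_of_pos_left _ (hpos j _ (hp j hj).1)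
  have hxg : ∀ j ∈ J1, x' j * g j = (p j).1 := fun j hj => Nat.div_mul_cancel (Nat.gcd_dvd_left _ _)
  have hyg : ∀ j ∈ J1, y' j * g j = (p j).2 := fun j hj => Nat.div_mul_cancel (Nat.gcd_dvd_right _ _)
  have hx0 : ∀ j ∈ J1, 0 < x' j := fun j hj => by
    have := hpos j _ (hp j hj).1
    rw [← hxg j hj] at this
    exact Nat.pos_of_mul_pos_right this |> fun _ => Nat.pos_of_ne_zero (by rintro h; simp [h] at this)
  have hy0 : ∀ j ∈ J1, 0 < y' j := fun j hj => by
    have := hpos j _ (hp j hj).2.1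
    rw [← hyg j hj] at this
    exact Nat.pos_of_ne_zero (by rintro h; simp [h] at this)
  have hTog : Pool.Agent.T2h42.GE.Tog x' y' J1 := by
    refine ⟨fun j hj => ⟨hx0 j hj, hy0 j hj⟩, fun j hj h => ?_, fun j hj => ?_, ?_⟩
    · apply (hp j hj).2.2
      rw [← hxg j hj, ← hyg j hj, h]
    · exact Nat.coprime_div_gcd_div_gcd (hgpos j hj)
    · intro i hi j hj hij
      have hc : ∀ u ∈ W i, ∀ v ∈ W j, Nat.Coprime u v := hcop i j hij
      have hxi : x' i ∣ (p i).1 := ⟨g i, (hxg i hi).symm⟩
      have hyi : y' i ∣ (p i).2 := ⟨g i, (hyg i hi).symm⟩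
      have hxj : x' j ∣ (p j).1 := ⟨g j, (hxg j hj).symm⟩
      have hyj : y' j ∣ (p j).2 := ⟨g j, (hyg j hj).symm⟩
      obtain ⟨hpi1, hpi2, -⟩ := hp i hi
      obtain ⟨hpj1, hpj2, -⟩ := hp j hj
      refine Nat.Coprime.mul_left ?_ ?_ <;> refine Nat.Coprime.mul_right ?_ ?_
      · exact Nat.Coprime.of_dvd hxi hxj (hc _ hpi1 _ hpj1)
      · exact Nat.Coprime.of_dvd hxi hyj (hc _ hpi1 _ hpj2)
      · exact Nat.Coprime.of_dvd hyi hxj (hc _ hpi2 _ hpj1)
      · exact Nat.Coprime.of_dvd hyi hyj (hc _ hpi2 _ hpj2)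
  -- the box with the factors outside J1
  set W' : J → Finset ℕ := fun j => if j ∈ J1 then {g j} else W j with hW'
  have hW'1 : ∀ j ∈ J1, W' j = {g j} := fun j hj => by simp [hW', hj]
  have hW'2 : ∀ j, j ∉ J1 → W' j = W j := fun j hj => by simp [hW', hj]
  have hdv : ∀ j, ∀ a ∈ W' j, ∃ b ∈ W j, a ∣ b := by
    intro j a ha
    by_cases hj : j ∈ J1
    · rw [hW'1 j hj, mem_singleton] at ha
      exact ⟨_, (hp j hj).1, ha ▸ Nat.gcd_dvd_left _ _⟩
    · rw [hW'2 j hj] at ha
      exact ⟨a, ha, dvd_rfl⟩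
  have hcop' : ∀ j j', j ≠ j' → ∀ x ∈ W' j, ∀ y ∈ W' j', Nat.Coprime x y := by
    intro j j' hjj a ha b hb
    obtain ⟨a', ha', haa⟩ := hdv j a ha
    obtain ⟨b', hb', hbb⟩ := hdv j' b hb
    exact Nat.Coprime.of_dvd haa hbb (hcop j j' hjj _ ha' _ hb')
  have hne' : ∀ j, (W' j).Nonempty := by
    intro j
    by_cases hj : j ∈ J1
    · rw [hW'1 j hj]; exact singleton_nonempty _
    · rw [hW'2 j hj]; exact hne j
  set X0 : Finset ℕ := (Fintype.piFinset W').image fun x => ∏ j, x j with hX0
  set X : Finset ℤ := X0.image fun a : ℕ => (a : ℤ) with hX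
  have hX0ne : X0.Nonempty := (Fintype.piFinset_nonempty.mpr hne').image _
  have hXne : X.Nonempty := hX0ne.image _
  have hXc : X.card = X0.card := card_image_of_injective _ Nat.cast_injective
  have hlogX : Real.log X.card = Hb - ∑ j ∈ J1, Real.log (W j).card := by
    rw [hXc, hX0, box_card hcop']
    push_cast
    rw [Real.log_prod (fun j _ => by exact_mod_cast (hne' j).card_pos.ne')]
    rw [hHb, ← Finset.sum_sdiff (subset_univ J1) (f := fun j => Real.log (W j).card),
      ← Finset.sum_sdiff (subset_univ J1) (f := fun j => Real.log ((W' j).card : ℝ))]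
    have e1 : ∑ j ∈ J1, Real.log ((W' j).card : ℝ) = 0 := by
      refine sum_eq_zero fun j hj => ?_
      rw [hW'1 j hj]; simp
    have e2 : ∑ j ∈ univ \ J1, Real.log ((W' j).card : ℝ) =
        ∑ j ∈ univ \ J1, Real.log ((W j).card : ℝ) := by
      refine sum_congr rfl fun j hj => ?_
      rw [hW'2 j (by simpa using hj)]
    rw [e1, e2]; ring
  have hlogX1 : (1 - 2 * δ) * H - C₀ - 1 / θ ≤ Real.log X.card := by
    rw [hlogX]
    linarith
  have hlogX2 : Real.log X.card ≤ H := by
    rw [hlogX]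
    have : 0 ≤ ∑ j ∈ J1, Real.log (W j).card := sum_nonneg fun j _ => hlogW j
    linarith
  have hcond : δ * θ / (1 + 1 / δ) * (Real.log X.card + Real.log B.card) ≤ J1.card := by
    rw [hJ1c]
    have h1 : Real.log X.card + Real.log B.card ≤ (1 + 1 / δ) * H := by
      have : (1 / δ) * H = H / δ := by ring
      linarith
    calc δ * θ / (1 + 1 / δ) * (Real.log X.card + Real.log B.card)
        ≤ δ * θ / (1 + 1 / δ) * ((1 + 1 / δ) * H) := mul_le_mul_of_nonneg_left h1 (by positivity)
      _ = δ * (θ * H) := by field_simp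
      _ ≤ δ * N.card := mul_le_mul_of_nonneg_left hθA hδ.le
      _ ≤ m := hm1
  obtain ⟨s, hs, hfin⟩ := hC' x' y' J1 hTog X B hXne hB hcond
  -- the dilate is contained in A
  have hdil : dil (dm x' y' J1 s) X ⊆ A.image fun a : ℕ => (a : ℤ) := by
    intro z hz
    unfold dil at hz
    obtain ⟨b, hb, rfl⟩ := mem_image.mp hz
    obtain ⟨a, ha, rfl⟩ := mem_image.mp hb
    obtain ⟨w, hw, rfl⟩ := mem_image.mp ha
    rw [Fintype.mem_piFinset] at hw
    set u : J → ℕ := fun j => (if j ∈ s then x' j else 1) * (if j ∈ J1 \ s then y' j else 1)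
      with hu
    have hu1 : dm x' y' J1 s = ((∏ j, u j : ℕ) : ℤ) := by
      unfold dm
      rw [hu, Finset.prod_mul_distrib, Finset.prod_ite_mem, Finset.prod_ite_mem, univ_inter,
        univ_inter]
      push_cast
      rfl
    refine mem_image.mpr ⟨∏ j, (u j * w j), hA (fun j => u j * w j) ?_, ?_⟩
    · rw [Fintype.mem_piFinset]
      intro j
      by_cases hj : j ∈ J1
      · have hwj : w j = g j := by
          have := hw j
          rwa [hW'1 j hj, mem_singleton] at this
        by_cases hjs : j ∈ s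
        · have : u j = x' j := by simp [hu, hjs]
          rw [this, hwj, hxg j hj]
          exact (hp j hj).1
        · have : u j = y' j := by simp [hu, hjs, hj]
          rw [this, hwj, hyg j hj]
          exact (hp j hj).2.1
      · have hjs : j ∉ s := fun h => hj (hs h)
        have : u j = 1 := by simp [hu, hjs, hj]
        rw [this, one_mul]
        have := hw j
        rwa [hW'2 j hj] at this
    · rw [Finset.prod_mul_distrib, hu1]
      push_cast
      rfl
  have hmono : Real.log ((dil (dm x' y' J1 s) X + B).card : ℝ) ≤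
      Real.log (((A.image fun a : ℕ => (a : ℤ)) + B).card : ℝ) := by
    apply Real.log_le_log
    · have : (dil (dm x' y' J1 s) X).Nonempty := by
        unfold dil; exact hXne.image _
      exact_mod_cast (this.add hB).card_pos
    · exact_mod_cast card_le_card (add_subset_add_right hdil)
  have hmax : C' ≤ max C' 0 := le_max_left _ _
  have h1δ : 0 ≤ 1 - δ := by linarith
  have k1 : (1 - δ) * ((1 - 2 * δ) * H - C₀ - 1 / θ) ≤ (1 - δ) * Real.log X.card :=
    mul_le_mul_of_nonneg_left hlogX1 h1δ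
  have k2 : 0 ≤ δ * (C₀ + 1 / θ) := by positivity
  have k3 : 0 ≤ δ * H := by positivity
  have k4 : 0 ≤ δ * δ * H := by positivity
  have k5 : 0 ≤ δ * Real.log B.card := by positivity
  nlinarith

end Pool.Agent.T2h24.BW
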