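import Pool.Agent.T2h24.BW.DP

/-!
The part FR: conditions of finite range with small separators.
-/

set_option autoImplicit false

namespace Pool.Agent.T2h24.BW

open Finset Pool.Agent.T4h92.BW
open scoped Classical Pointwise

section
variable {V : Type} [Fintype V]

/-- the number of the restrictions to `T` of the members of a box -/
theorem restr_card (X : V → Finset ℕ) {D : ℕ} (hD : ∀ v, (X v).card ≤ D) (T : Finset V) :
    (Fintype.piFinset fun v => if v ∈ T then X v else {0}).card ≤ D ^ T.card := by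
  rw [Fintype.card_piFinset]
  have : ∀ v, (if v ∈ T then X v else {0}).card = if v ∈ T then (X v).card else 1 := by
    intro v; split_ifs <;> simp
  rw [prod_congr rfl fun v _ => this v, Finset.prod_ite_mem, univ_inter]
  exact Finset.prod_le_pow_card _ _ _ fun v _ => hD v

theorem restr_mem {X : V → Finset ℕ} {x : V → ℕ} (hx : ∀ v, x v ∈ X v) (T : Finset V) :
    (fun v => if v ∈ T then x v else 0) ∈
      Fintype.piFinset fun v => if v ∈ T then X v else {0} := by
  rw [Fintype.mem_piFinset]
  intro v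
  by_cases h : v ∈ T
  · simp only [h, if_true]; exact hx v
  · simp [h]

omit [Fintype V] in
/-- coprimality of products over disjoint sets of places -/
theorem cop_prod {X : V → Finset ℕ}
    (hcop : ∀ v w, v ≠ w → ∀ x ∈ X v, ∀ y ∈ X w, Nat.Coprime x y) {x y : V → ℕ}
    (hx : ∀ v, x v ∈ X v) (hy : ∀ v, y v ∈ X v) {S T : Finset V} (hST : Disjoint S T) :
    Nat.Coprime (∏ v ∈ S, x v) (∏ v ∈ T, y v) :=
  Nat.Coprime.prod_left fun v hv => Nat.Coprime.prod_right fun w hw =>
    hcop v w (fun h => (Finset.disjoint_left.mp hST hv) (h ▸ hw)) _ (hx v) _ (hy w)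

end

theorem t_FR : T_FR := by
  intro k D ε θ hk hε hθ
  obtain ⟨ε', hε'0, hε'1, hsums⟩ := Pool.Agent.T2h42.Tree.to_sums k hk ε hε
  set D' : ℕ := max D 2 with hD'
  have hD'2 : 2 ≤ D' := le_max_right _ _
  have hD'r : (1 : ℝ) < D' := by exact_mod_cast (by omega : 1 < D')
  have hlD : 0 < Real.log D' := Real.log_pos hD'r
  refine ⟨(ε' / 4) * θ / Real.log D', by positivity, fun N => ?_⟩
  obtain ⟨C, hC0, hC⟩ := t_DP (ε' / 4) (1 / (2 * ((N : ℝ) + 1) * Real.log D')) 0 (by positivity)
    (by positivity) le_rfl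
  obtain ⟨c, hc, hfin⟩ := hsums C hC0
  refine ⟨c, hc, ?_⟩
  intro V _ E S col hS hE hcol X hXD0 hXpos hXcop Cd hCd A hA hAexp
  have hXD : ∀ v, (X v).card ≤ D' := fun v => (hXD0 v).trans (le_max_left _ _)
  have hAc : 0 < A.card := by
    have : (0 : ℝ) < A.card := lt_of_lt_of_le (Real.exp_pos _) hAexp
    exact_mod_cast this
  have hAne : A.Nonempty := card_pos.mp hAc
  refine hfin A hAne fun B hB => ?_
  set H := Real.log A.card with hH
  have hH0 : 0 ≤ H := Real.log_natCast_nonneg _
  have hHθ : θ * Fintype.card V ≤ H := by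
    rw [hH, Real.le_log_iff_exp_le (by exact_mod_cast hAc)]
    exact hAexp
  set F : Finset (V → ℕ) := (Fintype.piFinset X).filter fun x => ∀ e ∈ E, Cd e x with hF
  have hFA : A.card ≤ F.card := by
    rw [hA]; exact card_image_le
  have hFne : F.Nonempty := card_pos.mp (lt_of_lt_of_le hAc hFA)
  -- the most popular restriction to S
  set T : Finset (V → ℕ) := Fintype.piFinset fun v => if v ∈ S then X v else {0} with hT
  have hTc : T.card ≤ D' ^ S.card := restr_card X hXD S
  have hmaps : ∀ x ∈ F, (fun v => if v ∈ S then x v else 0) ∈ T := by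
    intro x hx
    rw [hF, mem_filter, Fintype.mem_piFinset] at hx
    exact restr_mem hx.1 S
  have hTne : T.Nonempty := by
    obtain ⟨x, hx⟩ := hFne
    exact ⟨_, hmaps x hx⟩
  have hTcr : (0 : ℝ) < T.card := by exact_mod_cast hTne.card_pos
  obtain ⟨r, hrT, hr⟩ := Finset.exists_le_card_fiber_of_nsmul_le_card_of_maps_to
    (s := F) (t := T) (f := fun x : V → ℕ => fun v => if v ∈ S then x v else 0)
    (b := (F.card : ℝ) / T.card) hmaps hTne (by
      rw [nsmul_eq_mul, mul_div_cancel₀ _ hTcr.ne'])
  set G : Finset (V → ℕ) := F.filter fun x => (fun v => if v ∈ S then x v else 0) = r with hG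
  have hGpos : (0 : ℝ) < G.card :=
    lt_of_lt_of_le (div_pos (by exact_mod_cast hFne.card_pos) hTcr) hr
  have hGne : G.Nonempty := card_pos.mp (by exact_mod_cast hGpos)
  have hGS : ∀ x ∈ G, ∀ y ∈ G, ∀ v ∈ S, x v = y v := by
    intro x hx y hy v hv
    have h1 := (mem_filter.mp hx).2
    have h2 := (mem_filter.mp hy).2
    have := congrFun (h1.trans h2.symm) v
    simpa [hv] using this
  have hGX : ∀ x ∈ G, ∀ v, x v ∈ X v := by
    intro x hx
    have := (mem_filter.mp (mem_filter.mp hx).1).1
    rwa [Fintype.mem_piFinset] at this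
  have hGC : ∀ x ∈ G, ∀ e ∈ E, Cd e x := fun x hx => (mem_filter.mp (mem_filter.mp hx).1).2
  have hlogG : (1 - ε' / 4) * H ≤ Real.log G.card := by
    have h1 : (A.card : ℝ) / (D' : ℝ) ^ S.card ≤ G.card := by
      refine le_trans ?_ hr
      have : (T.card : ℝ) ≤ (D' : ℝ) ^ S.card := by exact_mod_cast hTc
      have h2 : (A.card : ℝ) ≤ F.card := by exact_mod_cast hFA
      exact div_le_div₀ (Nat.cast_nonneg _) h2 hTcr this
    have hAr : (0 : ℝ) < A.card := by exact_mod_cast hAc
    have h2 := Real.log_le_log (by positivity) h1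
    rw [Real.log_div hAr.ne' (by positivity), Real.log_pow] at h2
    have h3 : (S.card : ℝ) * Real.log D' ≤ (ε' / 4) * H := by
      calc (S.card : ℝ) * Real.log D'
          ≤ ((ε' / 4) * θ / Real.log D' * Fintype.card V) * Real.log D' :=
            mul_le_mul_of_nonneg_right hS hlD.le
        _ = (ε' / 4) * (θ * Fintype.card V) := by field_simp
        _ ≤ _ := mul_le_mul_of_nonneg_left hHθ (by positivity)
    linarith
  obtain ⟨x₀, hx₀⟩ := hGne
  -- the box
  set Vu : V → Finset V := fun u => univ.filter fun v => v ∉ S ∧ col v = u with hVu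
  set W : Option V → Finset ℕ := fun j => Option.elim j {∏ v ∈ S, x₀ v}
    (fun u => G.image fun x => ∏ v ∈ Vu u, x v) with hW
  have hWn : W none = {∏ v ∈ S, x₀ v} := rfl
  have hWs : ∀ u, W (some u) = G.image fun x => ∏ v ∈ Vu u, x v := fun u => rfl
  have hWmem : ∀ u, ∀ a ∈ W (some u), ∃ x ∈ G, ∏ v ∈ Vu u, x v = a := by
    intro u a ha
    rw [hWs] at ha
    exact mem_image.mp ha
  have hWne : ∀ j, (W j).Nonempty := by
    rintro (_ | u)
    · exact singleton_nonempty _
    · exact ⟨_, mem_image_of_mem _ hx₀⟩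
  have hWpos : ∀ j, ∀ x ∈ W j, 0 < x := by
    rintro (_ | u) a ha
    · rw [hWn, mem_singleton] at ha
      rw [ha]
      exact prod_pos fun v _ => hXpos v _ (hGX x₀ hx₀ v)
    · obtain ⟨x, hx, rfl⟩ := hWmem u a ha
      exact prod_pos fun v _ => hXpos v _ (hGX x hx v)
  have hdisj1 : ∀ u, Disjoint S (Vu u) := by
    intro u
    rw [Finset.disjoint_left]
    intro v hv hv'
    exact (mem_filter.mp hv').2.1 hv
  have hdisj2 : ∀ u u', u ≠ u' → Disjoint (Vu u) (Vu u') := by
    intro u u' huu
    rw [Finset.disjoint_left]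
    intro v hv hv'
    exact huu ((mem_filter.mp hv).2.2.symm.trans (mem_filter.mp hv').2.2)
  have hWcop : ∀ j j', j ≠ j' → ∀ x ∈ W j, ∀ y ∈ W j', Nat.Coprime x y := by
    rintro (_ | u) (_ | u') hjj a ha b hb
    · exact absurd rfl hjj
    · rw [hWn, mem_singleton] at ha
      obtain ⟨y, hy, rfl⟩ := hWmem u' b hb
      rw [ha]
      exact cop_prod hXcop (hGX x₀ hx₀) (hGX y hy) (hdisj1 u')
    · rw [hWn, mem_singleton] at hb
      obtain ⟨x, hx, rfl⟩ := hWmem u a ha
      rw [hb]
      exact (cop_prod hXcop (hGX x₀ hx₀) (hGX x hx) (hdisj1 u)).symm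
    · obtain ⟨x, hx, rfl⟩ := hWmem u a ha
      obtain ⟨y, hy, rfl⟩ := hWmem u' b hb
      exact cop_prod hXcop (hGX x hx) (hGX y hy) (hdisj2 u u' fun h => hjj (by rw [h]))
  -- products over V
  have hprod : ∀ x : V → ℕ, ∏ v, x v = (∏ v ∈ S, x v) * ∏ u, ∏ v ∈ Vu u, x v := by
    intro x
    have h1 : ∏ u, ∏ v ∈ Vu u, x v = ∏ v ∈ univ \ S, x v := by
      rw [← Finset.prod_fiberwise_of_maps_to (s := univ \ S) (t := univ) (g := col)
        (fun v _ => mem_univ _) x]
      refine prod_congr rfl fun u _ => prod_congr ?_ fun _ _ => rfl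
      ext v
      simp [hVu]
    rw [h1, mul_comm, Finset.prod_sdiff (subset_univ S)]
  -- the box is contained in A
  have hbox : ∀ y ∈ Fintype.piFinset W, ∏ j, y j ∈ A := by
    intro y hy
    rw [Fintype.mem_piFinset] at hy
    have hy0 : y none = ∏ v ∈ S, x₀ v := by
      have := hy none
      rwa [hWn, mem_singleton] at this
    choose z hzG hz using fun u => hWmem u _ (hy (some u))
    set x : V → ℕ := fun v => if v ∈ S then x₀ v else z (col v) v with hx
    have hxS : ∀ v ∈ S, x v = x₀ v := fun v hv => by simp [hx, hv]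
    have hxV : ∀ v, v ∉ S → x v = z (col v) v := fun v hv => by simp [hx, hv]
    have hxX : ∀ v, x v ∈ X v := by
      intro v
      by_cases hv : v ∈ S
      · rw [hxS v hv]; exact hGX x₀ hx₀ v
      · rw [hxV v hv]; exact hGX _ (hzG _) v
    have hxC : ∀ e ∈ E, Cd e x := by
      intro e he
      by_cases hes : ∀ v ∈ e, v ∈ S
      · rw [hCd e x x₀ fun v hv => hxS v (hes v hv)]
        exact hGC x₀ hx₀ e he
      · push Not at hes
        obtain ⟨v₀, hv₀, hv₀S⟩ := hes
        rw [hCd e x (z (col v₀)) ?_]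
        · exact hGC _ (hzG _) e he
        · intro v hv
          by_cases hvS : v ∈ S
          · rw [hxS v hvS]
            exact hGS x₀ hx₀ _ (hzG _) v hvS
          · rw [hxV v hvS, hE e he v hv v₀ hv₀ hvS hv₀S]
    have hxF : x ∈ F := by
      rw [hF, mem_filter, Fintype.mem_piFinset]
      exact ⟨hxX, hxC⟩
    have hpe : ∏ j, y j = ∏ v, x v := by
      rw [Fintype.prod_option, hy0, hprod x]
      congr 1
      · exact prod_congr rfl fun v hv => (hxS v hv).symm
      · refine prod_congr rfl fun u _ => ?_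
        rw [← hz u]
        refine prod_congr rfl fun v hv => ?_
        have h := (mem_filter.mp hv).2
        rw [hxV v h.1, h.2]
    rw [hpe, hA]
    exact mem_image_of_mem _ hxF
  -- the sizes
  have hlogW : ∀ j, 0 ≤ Real.log (W j).card := fun j => Real.log_natCast_nonneg _
  have hWN : ∀ j, (W j).card ≤ D' ^ (N + 1) := by
    rintro (_ | u)
    · rw [hWn, card_singleton]
      exact Nat.one_le_pow _ _ (by omega)
    · have h1 : W (some u) ⊆ (Fintype.piFinset fun v => if v ∈ Vu u then X v else {0}).image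
          fun x => ∏ v ∈ Vu u, x v := by
        intro a ha
        obtain ⟨x, hx, rfl⟩ := hWmem u a ha
        refine mem_image.mpr ⟨_, restr_mem (hGX x hx) (Vu u), ?_⟩
        exact prod_congr rfl fun v hv => by simp [hv]
      calc (W (some u)).card ≤ _ := card_le_card h1
        _ ≤ _ := card_image_le
        _ ≤ D' ^ (Vu u).card := restr_card X hXD (Vu u)
        _ ≤ D' ^ (N + 1) := Nat.pow_le_pow_right (by omega) ((hcol u).trans (by omega))
  have hGW : Real.log G.card ≤ ∑ j, Real.log (W j).card := by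
    have hWc : ∀ j, (0 : ℝ) < (W j).card := fun j => by exact_mod_cast (hWne j).card_pos
    rw [← Real.log_prod (fun j _ => (hWc j).ne')]
    apply Real.log_le_log hGpos
    have h1 : G.card ≤ (Fintype.piFinset W).card := by
      refine Finset.card_le_card_of_injOn
        (fun x => fun j => Option.elim j (∏ v ∈ S, x v) (fun u => ∏ v ∈ Vu u, x v)) ?_ ?_
      · intro x hx
        rw [Finset.mem_coe] at hx
        rw [Finset.mem_coe, Fintype.mem_piFinset]
        rintro (_ | u)
        · rw [hWn, mem_singleton]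
          exact prod_congr rfl fun v hv => hGS x hx x₀ hx₀ v hv
        · rw [hWs]
          exact mem_image_of_mem _ hx
      · intro x hx y hy hxy
        rw [Finset.mem_coe] at hx hy
        refine prod_inj (W := X) hXcop (Fintype.mem_piFinset.mpr (hGX x hx))
          (Fintype.mem_piFinset.mpr (hGX y hy)) ?_
        rw [hprod x, hprod y]
        have h0 := congrFun hxy none
        have hu : ∀ u, ∏ v ∈ Vu u, x v = ∏ v ∈ Vu u, y v := fun u => congrFun hxy (some u)
        simp only [Option.elim] at h0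
        rw [h0, prod_congr rfl fun u _ => hu u]
    rw [Fintype.card_piFinset] at h1
    exact_mod_cast h1
  have hmany : 1 / (2 * ((N : ℝ) + 1) * Real.log D') * Real.log A.card ≤
      ((univ.filter fun j => 2 ≤ (W j).card).card : ℝ) := by
    have h1 : ∑ j, Real.log (W j).card ≤
        ∑ j, if 2 ≤ (W j).card then ((N : ℝ) + 1) * Real.log D' else 0 := by
      refine sum_le_sum fun j _ => ?_
      split_ifs with h
      · have : ((W j).card : ℝ) ≤ (D' : ℝ) ^ (N + 1) := by exact_mod_cast hWN j
        have h3 := Real.log_le_log (by exact_mod_cast (by omega : 0 < (W j).card)) this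
        rw [Real.log_pow] at h3
        push_cast at h3
        exact h3
      · have : (W j).card = 1 := by
          have := (hWne j).card_pos
          omega
        rw [this]; simp
    rw [← Finset.sum_filter, sum_const, nsmul_eq_mul] at h1
    have h2 : H / 2 ≤ (1 - ε' / 4) * H := by nlinarith
    have h3 : H / 2 ≤ ((univ.filter fun j => 2 ≤ (W j).card).card : ℝ) *
        (((N : ℝ) + 1) * Real.log D') := by linarith
    rw [one_div, ← div_eq_inv_mul, div_le_iff₀ (by positivity), ← hH]
    linarith
  have hres := hC (Option V) W hWne hWpos hWcop A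
    (fun x hx => hbox x (by convert hx)) hmany (by
    rw [sub_zero]
    exact hlogG.trans hGW) B hB
  have he : (1 : ℝ) - 4 * (ε' / 4) = 1 - ε' := by ring
  rw [he] at hres
  exact hres

end Pool.Agent.T2h24.BW
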